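import Mathlib

/-!
# The variety of the grammic monoid of rank `n` comes from a finite monoid only for `n = 1`

For `n ≥ 1` we show: there is a finite monoid `F` such that `var (𝔾ₙ)` equals `var (F)` or
`var (F) ∨ Com` if and only if `n = 1`. In particular the question Q1 of the problem has a
negative answer, and it fails for every `n ≥ 2`.

Idea: a finite monoid satisfies an identity `x ^ k = x ^ (k + d)` with `k, d ≥ 1`, hence also the
balanced identity `x ^ k y x ^ (k + d) = x ^ (k + d) y x ^ k`. The latter holds in commutative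
semigroups, so it holds in `var (F) ∨ Com`. It fails in `𝔾ₙ` for `n ≥ 2`: take `x = 1` and
`y = 1 ^ (k + d) 2 ^ (k + d)` and compare longest weakly increasing subsequences.
-/

namespace Pool.Agent.Results.MP_2928c2_al.GrammicVariety

/-! ### The grammic monoid -/

/-- `ell p q w` is the largest length of a weakly increasing subsequence of the word `w`, all of
whose letters lie in the interval `{p, …, q}`. -/
noncomputable def ell {n : ℕ} (p q : Fin n) (w : List (Fin n)) : ℕ :=
  sSup {k : ℕ | ∃ l : List (Fin n), l.Sublist w ∧ l.Pairwise (· ≤ ·) ∧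
    (∀ x ∈ l, p ≤ x ∧ x ≤ q) ∧ l.length = k}

theorem ell_bddAbove {n : ℕ} (p q : Fin n) (w : List (Fin n)) :
    BddAbove {k : ℕ | ∃ l : List (Fin n), l.Sublist w ∧ l.Pairwise (· ≤ ·) ∧
      (∀ x ∈ l, p ≤ x ∧ x ≤ q) ∧ l.length = k} := by
  refine ⟨w.length, ?_⟩
  rintro k ⟨l, hl, -, -, rfl⟩
  exact hl.length_le

theorem length_le_ell {n : ℕ} {p q : Fin n} {w l : List (Fin n)} (h1 : l.Sublist w)
    (h2 : l.Pairwise (· ≤ ·)) (h3 : ∀ x ∈ l, p ≤ x ∧ x ≤ q) : l.length ≤ ell p q w :=
  le_csSup (ell_bddAbove p q w) ⟨l, h1, h2, h3, rfl⟩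

theorem exists_length_eq_ell {n : ℕ} (p q : Fin n) (w : List (Fin n)) :
    ∃ l : List (Fin n), l.Sublist w ∧ l.Pairwise (· ≤ ·) ∧
      (∀ x ∈ l, p ≤ x ∧ x ≤ q) ∧ l.length = ell p q w :=
  Nat.sSup_mem (s := {k : ℕ | ∃ l : List (Fin n), l.Sublist w ∧ l.Pairwise (· ≤ ·) ∧
    (∀ x ∈ l, p ≤ x ∧ x ≤ q) ∧ l.length = k})
    ⟨0, [], List.nil_sublist w, List.Pairwise.nil, by simp, rfl⟩ (ell_bddAbove p q w)

theorem ell_append_le {n : ℕ} {u u' v v' : List (Fin n)}
    (hu : ∀ p q : Fin n, p ≤ q → ell p q u ≤ ell p q u')
    (hv : ∀ p q : Fin n, p ≤ q → ell p q v ≤ ell p q v') {p q : Fin n} (hpq : p ≤ q) :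
    ell p q (u ++ v) ≤ ell p q (u' ++ v') := by
  obtain ⟨l, h1, h2, h3, h4⟩ := exists_length_eq_ell p q (u ++ v)
  obtain ⟨l1, l2, rfl, hl1, hl2⟩ := List.sublist_append_iff.1 h1
  rw [List.pairwise_append] at h2
  obtain ⟨s1, s2, s12⟩ := h2
  -- choose the splitting letter
  obtain ⟨r, hpr, hrq, hr1, hr2⟩ : ∃ r : Fin n, p ≤ r ∧ r ≤ q ∧ (∀ x ∈ l1, p ≤ x ∧ x ≤ r) ∧
      (∀ x ∈ l2, r ≤ x ∧ x ≤ q) := by
    rcases List.eq_nil_or_concat l1 with rfl | ⟨l0, r, rfl⟩
    · exact ⟨p, le_rfl, hpq, by simp, fun x hx => h3 x (by simp [hx])⟩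
    · refine ⟨r, (h3 r (by simp)).1, (h3 r (by simp)).2, ?_, ?_⟩
      · intro x hx
        refine ⟨(h3 x (by simp at hx ⊢; tauto)).1, ?_⟩
        rw [List.concat_eq_append, List.pairwise_append] at s1
        simp only [List.concat_eq_append, List.mem_append, List.mem_singleton] at hx
        rcases hx with hx | rfl
        · exact s1.2.2 x hx r (by simp)
        · exact le_rfl
      · intro x hx
        exact ⟨s12 r (by simp) x hx, (h3 x (by simp [hx])).2⟩
  have e1 : l1.length ≤ ell p r u' := (length_le_ell hl1 s1 hr1).trans (hu p r hpr)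
  have e2 : l2.length ≤ ell r q v' := (length_le_ell hl2 s2 hr2).trans (hv r q hrq)
  obtain ⟨m1, a1, a2, a3, a4⟩ := exists_length_eq_ell p r u'
  obtain ⟨m2, b1, b2, b3, b4⟩ := exists_length_eq_ell r q v'
  have key : (m1 ++ m2).length ≤ ell p q (u' ++ v') := by
    apply length_le_ell (a1.append b1)
    · rw [List.pairwise_append]
      exact ⟨a2, b2, fun x hx y hy => (a3 x hx).2.trans (b3 y hy).1⟩
    · intro x hx
      rcases List.mem_append.1 hx with hx | hx
      · exact ⟨(a3 x hx).1, (a3 x hx).2.trans hrq⟩
      · exact ⟨hpr.trans (b3 x hx).1, (b3 x hx).2⟩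
  rw [List.length_append] at key h4
  omega

/-- The grammic congruence on the free monoid over the alphabet `Fin n`: two words are congruent
when all the numbers `ell p q` with `p ≤ q` agree. -/
def grammicCon (n : ℕ) : Con (FreeMonoid (Fin n)) where
  r u v := ∀ p q : Fin n, p ≤ q → ell p q (FreeMonoid.toList u) = ell p q (FreeMonoid.toList v)
  iseqv := ⟨fun _ _ _ _ => rfl, fun h p q hpq => (h p q hpq).symm,
    fun h h' p q hpq => (h p q hpq).trans (h' p q hpq)⟩
  mul' := by
    intro u u' v v' hu hv p q hpq
    rw [FreeMonoid.toList_mul, FreeMonoid.toList_mul]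
    exact le_antisymm
      (ell_append_le (fun p q h => (hu p q h).le) (fun p q h => (hv p q h).le) hpq)
      (ell_append_le (fun p q h => (hu p q h).ge) (fun p q h => (hv p q h).ge) hpq)

/-- The grammic monoid of rank `n`. -/
abbrev Grammic (n : ℕ) : Type := (grammicCon n).Quotient

/-! ### Semigroup identities and varieties of semigroups -/

/-- The semigroup `S` satisfies the identity `u = v` (`u`, `v` non-empty words). -/
def Satisfies (S : Type) [Semigroup S] (u v : FreeSemigroup ℕ) : Prop :=
  ∀ f : ℕ → S, FreeSemigroup.lift f u = FreeSemigroup.lift f v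

/-- A class of semigroups. -/
abbrev SgClass : Type 1 := (T : Type) → Semigroup T → Prop

/-- `var S`: the class of all semigroups which satisfy every identity that holds in `S`. -/
def var (S : Type) [Semigroup S] : SgClass := fun T _ =>
  ∀ u v : FreeSemigroup ℕ, Satisfies S u v → Satisfies T u v

/-- The class of commutative semigroups. -/
def Com : SgClass := fun T _ => ∀ a b : T, a * b = b * a

/-- A class of semigroups is a variety if it is closed under homomorphic images, subsemigroups
(more precisely: semigroups which embed in a member) and direct products. -/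
structure IsVariety (V : SgClass) : Prop where
  /-- closure under homomorphic images -/
  image : ∀ (S T : Type) [hS : Semigroup S] [hT : Semigroup T] (f : S →ₙ* T),
    Function.Surjective f → V S hS → V T hT
  /-- closure under subsemigroups -/
  sub : ∀ (S T : Type) [hS : Semigroup S] [hT : Semigroup T] (f : S →ₙ* T),
    Function.Injective f → V T hT → V S hS
  /-- closure under direct products -/
  prod : ∀ (ι : Type) (S : ι → Type) [hS : ∀ i, Semigroup (S i)],
    (∀ i, V (S i) (hS i)) → V (∀ i, S i) Pi.semigroup

/-- The join `U ∨ W`: the smallest variety which contains both classes `U` and `W`. -/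
def join (U W : SgClass) : SgClass := fun T hT =>
  ∀ V : SgClass, IsVariety V → (∀ S hS, U S hS → V S hS) → (∀ S hS, W S hS → V S hS) → V T hT

/-! ### Basic facts on identities -/

/-- The list of letters of a non-empty word. -/
def letters (u : FreeSemigroup ℕ) : List ℕ := u.head :: u.tail

theorem lift_eq_prod {M : Type} [Monoid M] (f : ℕ → M) (u : FreeSemigroup ℕ) :
    FreeSemigroup.lift f u = ((letters u).map f).prod := by
  obtain ⟨x, xs⟩ := u
  rw [FreeSemigroup.lift_mk_eq_foldl]
  simp only [letters, List.map_cons, List.prod_cons]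
  generalize f x = a
  induction xs generalizing a with
  | nil => simp
  | cons y ys ih => simp only [List.foldl_cons, List.map_cons, List.prod_cons, ih, mul_assoc]

/-- The class of all semigroups satisfying a given identity is a variety. -/
theorem isVariety_satisfies (u v : FreeSemigroup ℕ) :
    IsVariety (fun T hT => @Satisfies T hT u v) := by
  refine ⟨?_, ?_, ?_⟩
  · intro S T _ _ f hf h g
    obtain ⟨g', hg'⟩ : ∃ g' : ℕ → S, ∀ i, f (g' i) = g i :=
      ⟨fun i => (hf (g i)).choose, fun i => (hf (g i)).choose_spec⟩
    have e : FreeSemigroup.lift g = f.comp (FreeSemigroup.lift g') := by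
      apply FreeSemigroup.hom_ext
      funext i
      simp [hg']
    rw [e, MulHom.comp_apply, MulHom.comp_apply, h g']
  · intro S T _ _ f hf h g
    apply hf
    have e : FreeSemigroup.lift (f ∘ g) = f.comp (FreeSemigroup.lift g) := by
      apply FreeSemigroup.hom_ext
      funext i
      simp
    have := h (f ∘ g)
    rwa [e, MulHom.comp_apply, MulHom.comp_apply] at this
  · intro ι S _ h g
    funext i
    have e : ∀ w, FreeSemigroup.lift g w i = FreeSemigroup.lift (fun j => g j i) w := by
      intro w
      have : (Pi.evalMulHom S i).comp (FreeSemigroup.lift g) =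
          FreeSemigroup.lift (fun j => g j i) := by
        apply FreeSemigroup.hom_ext
        funext j
        simp
      rw [← this]
      rfl
    rw [e, e]
    exact h i (fun j => g j i)

/-- The commutative semigroups form a variety. -/
theorem isVariety_com : IsVariety Com := by
  refine ⟨?_, ?_, ?_⟩
  · intro S T _ _ f hf h a b
    obtain ⟨a, rfl⟩ := hf a
    obtain ⟨b, rfl⟩ := hf b
    rw [← map_mul, h a b, map_mul]
  · intro S T _ _ f hf h a b
    apply hf
    rw [map_mul, map_mul]
    exact h _ _
  · intro ι S _ h a b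
    funext i
    exact h i _ _

/-- A commutative semigroup satisfies every identity whose sides have the same letters with the
same multiplicities. -/
theorem satisfies_of_perm {T : Type} [Semigroup T] (hT : ∀ a b : T, a * b = b * a)
    {u v : FreeSemigroup ℕ} (h : (letters u).Perm (letters v)) : Satisfies T u v := by
  intro f
  let _ : CommSemigroup T := { (inferInstance : Semigroup T) with mul_comm := hT }
  apply WithOne.coe_injective
  have e : ∀ w : FreeSemigroup ℕ, ((FreeSemigroup.lift f w : T) : WithOne T) =
      ((letters w).map (fun i => (f i : WithOne T))).prod := by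
    intro w
    rw [← lift_eq_prod]
    have : WithOne.coeMulHom.comp (FreeSemigroup.lift f) =
        FreeSemigroup.lift (fun i => (f i : WithOne T)) := by
      apply FreeSemigroup.hom_ext
      funext i
      simp
    rw [← this]
    rfl
  rw [e, e]
  exact (h.map _).prod_eq

/-- A finite monoid satisfies an identity `x ^ k = x ^ (k + d)` with `k, d ≥ 1`. -/
theorem exists_pow_eq (F : Type) [Monoid F] [Finite F] :
    ∃ k d : ℕ, 1 ≤ k ∧ 1 ≤ d ∧ ∀ x : F, x ^ k = x ^ (k + d) := by
  obtain ⟨i, j, hij, h⟩ := Finite.exists_ne_map_eq_of_infinite (fun m : ℕ => fun x : F => x ^ m)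
  have key : ∀ i j : ℕ, i < j → (fun x : F => x ^ i) = (fun x : F => x ^ j) →
      ∃ k d : ℕ, 1 ≤ k ∧ 1 ≤ d ∧ ∀ x : F, x ^ k = x ^ (k + d) := by
    intro i j hij h
    refine ⟨i + 1, j - i, by omega, by omega, fun x => ?_⟩
    have hx : x ^ i = x ^ j := congrFun h x
    rw [pow_succ, hx, ← pow_succ]
    congr 1
    omega
  rcases lt_or_gt_of_ne hij with hlt | hlt
  · exact key i j hlt h
  · exact key j i hlt h.symm

/-- The word `x ^ (a + 1) y x ^ b` with `x = 0` and `y = 1`. -/
def word (a b : ℕ) : FreeSemigroup ℕ := ⟨0, List.replicate a 0 ++ 1 :: List.replicate b 0⟩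

theorem letters_word (a b : ℕ) :
    letters (word a b) = List.replicate (a + 1) 0 ++ 1 :: List.replicate b 0 := by
  simp [letters, word, List.replicate_succ]

theorem lift_word {M : Type} [Monoid M] (f : ℕ → M) (a b : ℕ) :
    FreeSemigroup.lift f (word a b) = f 0 ^ (a + 1) * (f 1 * f 0 ^ b) := by
  rw [lift_eq_prod, letters_word]
  simp

/-! ### The grammic monoids of rank at least two -/

/-- `ell` of the word `A ^ a A ^ m B ^ m A ^ b`, where `A < B` are the first two letters. -/
theorem ell_upper {n : ℕ} {A B : Fin n} (hAB : A < B) (a m b : ℕ) (h : b ≤ m) :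
    ell A B (List.replicate a A ++ ((List.replicate m A ++ List.replicate m B) ++
      List.replicate b A)) ≤ a + m + m := by
  obtain ⟨l, h1, h2, -, h4⟩ := exists_length_eq_ell A B (List.replicate a A ++
    ((List.replicate m A ++ List.replicate m B) ++ List.replicate b A))
  rw [← h4]
  obtain ⟨l1, l', rfl, hl1, h1'⟩ := List.sublist_append_iff.1 h1
  obtain ⟨l'', l4, rfl, h1'', hl4⟩ := List.sublist_append_iff.1 h1'
  obtain ⟨l2, l3, rfl, hl2, hl3⟩ := List.sublist_append_iff.1 h1''
  have e1 := hl1.length_le
  have e2 := hl2.length_le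
  have e3 := hl3.length_le
  have e4 := hl4.length_le
  simp only [List.length_replicate] at e1 e2 e3 e4
  simp only [List.length_append]
  rcases Nat.eq_zero_or_pos l3.length with h3 | h3
  · omega
  · rcases Nat.eq_zero_or_pos l4.length with h0 | h0
    · omega
    · exfalso
      obtain ⟨x, hx⟩ := List.exists_mem_of_length_pos h3
      obtain ⟨y, hy⟩ := List.exists_mem_of_length_pos h0
      have hxB : x = B := List.eq_of_mem_replicate (hl3.subset hx)
      have hyA : y = A := List.eq_of_mem_replicate (hl4.subset hy)
      rw [List.pairwise_append, List.pairwise_append] at h2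
      have hle : x ≤ y := h2.2.1.2.2 x (by simp [hx]) y hy
      rw [hxB, hyA] at hle
      exact absurd hle (not_le.2 hAB)

theorem ell_lower {n : ℕ} {A B : Fin n} (hAB : A < B) (a m b : ℕ) :
    a + m + m ≤ ell A B (List.replicate a A ++ ((List.replicate m A ++ List.replicate m B) ++
      List.replicate b A)) := by
  have key : (List.replicate a A ++ (List.replicate m A ++ List.replicate m B)).length ≤
      ell A B (List.replicate a A ++ ((List.replicate m A ++ List.replicate m B) ++
        List.replicate b A)) := by
    apply length_le_ell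
    · exact (List.Sublist.refl _).append (List.sublist_append_left _ _)
    · simp only [List.pairwise_append, List.mem_replicate, List.mem_append]
      refine ⟨?_, ⟨?_, ?_, ?_⟩, ?_⟩
      · exact List.pairwise_replicate.2 (Or.inr le_rfl)
      · exact List.pairwise_replicate.2 (Or.inr le_rfl)
      · exact List.pairwise_replicate.2 (Or.inr le_rfl)
      · rintro x ⟨-, rfl⟩ y ⟨-, rfl⟩
        exact hAB.le
      · rintro x ⟨-, rfl⟩ y (⟨-, rfl⟩ | ⟨-, rfl⟩)
        · exact le_rfl
        · exact hAB.le
    · intro x hx
      simp only [List.mem_append, List.mem_replicate] at hx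
      rcases hx with ⟨-, rfl⟩ | ⟨-, rfl⟩ | ⟨-, rfl⟩
      · exact ⟨le_rfl, hAB.le⟩
      · exact ⟨le_rfl, hAB.le⟩
      · exact ⟨hAB.le, le_rfl⟩
  simp only [List.length_append, List.length_replicate] at key
  omega

/-- For `n ≥ 2` the grammic monoid of rank `n` violates every identity
`x ^ k y x ^ (k + d) = x ^ (k + d) y x ^ k` with `k, d ≥ 1` (here `k = a + 1`). -/
theorem not_satisfies_grammic {n : ℕ} (hn : 2 ≤ n) (a d : ℕ) (hd : 1 ≤ d) :
    ¬ Satisfies (Grammic n) (word a (a + 1 + d)) (word (a + d) (a + 1)) := by
  intro h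
  set A : Fin n := ⟨0, by omega⟩ with hA
  set B : Fin n := ⟨1, by omega⟩ with hB
  have hAB : A < B := by rw [hA, hB, Fin.lt_def]; norm_num
  set m := a + 1 + d with hm
  set X : FreeMonoid (Fin n) := FreeMonoid.ofList [A] with hX
  set Y : FreeMonoid (Fin n) := FreeMonoid.ofList (List.replicate m A ++ List.replicate m B)
    with hY
  have hXpow : ∀ c : ℕ, FreeMonoid.toList (X ^ c) = List.replicate c A := by
    intro c
    induction c with
    | zero => rfl
    | succ c ih =>
      rw [pow_succ, FreeMonoid.toList_mul, ih, hX, FreeMonoid.toList_ofList,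
        List.replicate_succ']
  have h1 := h (fun i => if i = 0 then ((X : FreeMonoid (Fin n)) : Grammic n) else (Y : Grammic n))
  rw [lift_word, lift_word] at h1
  simp only [if_true, one_ne_zero, if_false] at h1
  have h2 : ((X ^ (a + 1) * (Y * X ^ m) : FreeMonoid (Fin n)) : Grammic n) =
      ((X ^ (a + d + 1) * (Y * X ^ (a + 1)) : FreeMonoid (Fin n)) : Grammic n) := h1
  rw [Con.eq] at h2
  have h3 := h2 A B hAB.le
  simp only [FreeMonoid.toList_mul, hXpow] at h3
  rw [hY, FreeMonoid.toList_ofList] at h3
  have h4 := ell_upper hAB (a + 1) m m le_rfl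
  have h5 := ell_lower hAB (a + d + 1) m (a + 1)
  omega

/-! ### Rank one -/

theorem ell_replicate (c : ℕ) (p : Fin 1) : ell p p (List.replicate c p) = c := by
  apply le_antisymm
  · obtain ⟨l, h1, -, -, h4⟩ := exists_length_eq_ell p p (List.replicate c p)
    rw [← h4]
    simpa using h1.length_le
  · have := length_le_ell (p := p) (q := p) (List.Sublist.refl (List.replicate c p))
      (List.pairwise_replicate.2 (Or.inr le_rfl))
      (fun x hx => by rw [List.eq_of_mem_replicate hx]; exact ⟨le_rfl, le_rfl⟩)
    simpa using this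

theorem grammic_one_comm (a b : Grammic 1) : a * b = b * a := by
  induction a using Con.induction_on with
  | H u =>
  induction b using Con.induction_on with
  | H v =>
  have hrep : ∀ l : List (Fin 1), l = List.replicate l.length 0 := fun l =>
    List.eq_replicate_iff.2 ⟨rfl, fun x _ => Subsingleton.elim _ _⟩
  have huv : u * v = v * u := by
    apply FreeMonoid.toList.injective
    rw [FreeMonoid.toList_mul, FreeMonoid.toList_mul, hrep (FreeMonoid.toList u ++ _),
      hrep (FreeMonoid.toList v ++ _)]
    simp [Nat.add_comm]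
  rw [← Con.coe_mul, ← Con.coe_mul, huv]

theorem perm_of_satisfies_grammic_one {u v : FreeSemigroup ℕ} (h : Satisfies (Grammic 1) u v) :
    (letters u).Perm (letters v) := by
  rw [List.perm_iff_count]
  intro i
  set X : FreeMonoid (Fin 1) := FreeMonoid.ofList [0] with hX
  have hXpow : ∀ c : ℕ, FreeMonoid.toList (X ^ c) = List.replicate c (0 : Fin 1) := by
    intro c
    induction c with
    | zero => rfl
    | succ c ih =>
      rw [pow_succ, FreeMonoid.toList_mul, ih, hX, FreeMonoid.toList_ofList,
        List.replicate_succ']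
  have h1 := h (fun j => if j = i then ((X : FreeMonoid (Fin 1)) : Grammic 1) else 1)
  have e : ∀ l : List ℕ, (l.map (fun j => if j = i then ((X : FreeMonoid (Fin 1)) : Grammic 1)
      else 1)).prod = ((X ^ (l.count i) : FreeMonoid (Fin 1)) : Grammic 1) := by
    intro l
    induction l with
    | nil => rfl
    | cons y ys ih =>
      rw [List.map_cons, List.prod_cons, ih, List.count_cons]
      by_cases hy : y = i
      · rw [if_pos hy, ← Con.coe_mul, ← pow_succ']
        simp [hy]
      · rw [if_neg hy, one_mul]
        simp [hy]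
  rw [lift_eq_prod, lift_eq_prod, e, e, Con.eq] at h1
  have h2 := h1 0 0 le_rfl
  rwa [hXpow, hXpow, ell_replicate, ell_replicate] at h2

theorem var_grammic_one : var (Grammic 1) = Com := by
  funext T hT
  apply propext
  constructor
  · intro h a b
    have h1 : Satisfies (Grammic 1) (FreeSemigroup.of 0 * FreeSemigroup.of 1)
        (FreeSemigroup.of 1 * FreeSemigroup.of 0) := by
      intro f
      rw [map_mul, map_mul]
      exact grammic_one_comm _ _
    have h2 := h _ _ h1 (fun i => if i = 0 then a else b)
    simpa using h2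
  · intro h u v huv
    exact satisfies_of_perm h (perm_of_satisfies_grammic_one huv)

theorem join_unit_com : join (var Unit) Com = Com := by
  funext T hT
  apply propext
  constructor
  · intro h
    apply h Com isVariety_com
    · intro S hS hV a b
      have h1 : Satisfies Unit (FreeSemigroup.of 0 * FreeSemigroup.of 1)
          (FreeSemigroup.of 1 * FreeSemigroup.of 0) := fun f => Subsingleton.elim _ _
      have h2 := hV _ _ h1 (fun i => if i = 0 then a else b)
      simpa using h2
    · exact fun S hS h => h
  · intro h V _ _ h2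
    exact h2 T hT h

/-- **Main result.** For `n ≥ 1` let `𝔾ₙ` be the grammic monoid of rank `n`. There is a finite
monoid `F` with `var (𝔾ₙ) = var (F)` or `var (𝔾ₙ) = var (F) ∨ Com` if and only if `n = 1`. -/
theorem result (n : ℕ) (hn : 1 ≤ n) :
    (∃ (F : Type) (_ : Monoid F) (_ : Finite F),
      var (Grammic n) = var F ∨ var (Grammic n) = join (var F) Com) ↔ n = 1 := by
  constructor
  · rintro ⟨F, hF, hfin, h⟩
    by_contra hn1
    have hn2 : 2 ≤ n := by omega
    obtain ⟨k, d, hk, hd, hkd⟩ := exists_pow_eq F
    obtain ⟨a, rfl⟩ : ∃ a, k = a + 1 := ⟨k - 1, by omega⟩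
    have hself : var (Grammic n) (Grammic n) inferInstance := fun _ _ h => h
    have hsat : Satisfies F (word a (a + 1 + d)) (word (a + d) (a + 1)) := by
      intro f
      have e : a + d + 1 = a + 1 + d := by omega
      rw [lift_word, lift_word, e, ← hkd (f 0)]
    apply not_satisfies_grammic hn2 a d hd
    rcases h with h | h
    · rw [h] at hself
      exact hself _ _ hsat
    · rw [h] at hself
      apply hself _ (isVariety_satisfies (word a (a + 1 + d)) (word (a + d) (a + 1)))
      · intro S hS hV
        exact hV _ _ hsat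
      · intro S hS hC
        apply satisfies_of_perm hC
        rw [letters_word, letters_word, List.perm_iff_count]
        intro i
        simp only [List.count_append, List.count_cons, List.count_replicate]
        split_ifs <;> omega
  · rintro rfl
    refine ⟨Unit, inferInstance, inferInstance, Or.inr ?_⟩
    rw [join_unit_com, var_grammic_one]

end Pool.Agent.Results.MP_2928c2_al.GrammicVariety
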